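import Pool.Agent.W734.NS.Cut2

/-!
# Continuation of Euler solutions: one finite cut-off frequency decides

A truncated and quantitative form of the criteria of Kato and Beale-Kato-Majda. Only the frequencies
below one cut-off `2 ^ J` are looked at, where `J` is at least a constant times the logarithm of the
norm of the data, and the allowed size of the truncated integrals grows with `J`:

* (Kato) if `∫₀ᵀ max_{n ≤ J} ‖∇P_n u‖_∞ dt ≤ c J`, `P_n` being the smooth restriction to the frequencies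
  at most `2 ^ n`, then the solution stays smooth up to the time `T` (`α = 0` below). In particular
  this holds if the average over the shells `j ≤ J` of `∫₀ᵀ ‖∇Δ_j u‖_∞ dt` is at most `c`;
* (Beale-Kato-Majda) the same holds if `∫₀ᵀ max_{1 ≤ n ≤ J} ‖∇P_n u‖_∞ / n dt ≤ c log J` (here
  `β = ‖∇P_0 u‖_∞` is bounded by the energy); up to such low frequency terms the quotient is at most
  a constant times the norm of the vorticity in the Besov space `B⁰_{∞,∞}`.

So at the time `T` of a singularity the truncated integrals are at least `c J - C` and `c log J - C`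
for every `J`. All constants are the same for all viscosities `ν ≥ 0`; `ν = 0` is the case of the
Euler equations.
-/

open MeasureTheory Set H459R3.NS Pool.Agent.W734.NS

set_option autoImplicit false

/-- For every integer `l ≥ 2` there is a constant `C > 0` such that the following holds for every
smooth periodic solution `(u, P)` on `[0, T) × ℝ³` of the Euler equations (`ν = 0`) or of the
Navier-Stokes equations (`ν > 0`), for every integer `J ≥ 0` and all integrable functions
`α, β ≥ 0` on `(0, T)` with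

`C (1 + log (1 + T² ∫ |Δ^l u(0)|²) + ∫₀ᵀ β) exp (C ∫₀ᵀ α) ≤ J`.

If the smooth low frequency parts of the gradient satisfy `|P_n (∂ₘ uᵢ)| ≤ β(t) + n α(t)` on `ℝ³`
for all `t ∈ (0, T)` and `0 ≤ n ≤ J`, where `P_n f = S (ch (2 ^ n) (fr f))` is the Fourier series of
`f` with the coefficients multiplied by the cut-off `chi (2 ^ n)`, then
`T² ∫ |Δ^l u(t)|² < exp J` for all `t ∈ [0, T)`. -/
theorem Pool.Agent.Results.MP_b0497c_an.CutoffBKM.result (l : ℕ) (hl : 2 ≤ l) :
    ∃ C : ℝ, 0 < C ∧ ∀ (ν T : ℝ) (J : ℕ) (u : ℝ → V → V) (P : ℝ → V → ℝ) (α β : ℝ → ℝ),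
      0 ≤ ν → 0 < T → IsSol ν T u P → (∀ t ∈ Ioo 0 T, 0 ≤ α t) → (∀ t ∈ Ioo 0 T, 0 ≤ β t) →
      IntegrableOn α (Ioo 0 T) → IntegrableOn β (Ioo 0 T) →
      C * (1 + Real.log (1 + T ^ 2 * hn l (u 0)) + ∫ t in Ioo 0 T, β t)
        * Real.exp (C * ∫ t in Ioo 0 T, α t) ≤ J →
      (∀ t ∈ Ioo 0 T, ∀ n ≤ J, ∀ i m x,
        ‖S (ch (2 ^ n) (fr (pd m fun y => u t y i))) x‖ ≤ β t + n * α t) →
      ∀ t ∈ Ico 0 T, T ^ 2 * hn l (u t) < Real.exp J := by
  obtain ⟨r, rfl⟩ : ∃ r, l = r + 2 := ⟨l - 2, by omega⟩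
  obtain ⟨C, hC, hmain⟩ := cut_log r
  refine ⟨C, hC, fun ν T J u P α β hν hT h hα0 hβ0 hαi hβi hJ hcomp =>
    hmain ν T J u P α β hν hT h hα0 hβ0 hαi hβi hJ fun t ht n hn i m x => ?_⟩
  have h1 := hcomp t ht n hn i m x
  rwa [fr_pd (h.sp ⟨ht.1.le, ht.2⟩ i) m] at h1
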