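import Pool.Agent.W786.Max4

/-!
# The second singular value of the velocity gradient at one point of maximal vorticity

For a traceless matrix `M` with curl vector `ω` (such as `M = ∇u(t, x)`) the stretching rate
satisfies `|ω · M ω| ≤ 2 σ₂(M) |ω|²`, where `σ₂(M)` is the second largest singular value of `M`,
the distance of `M` to the matrices of rank at most one. The maximum of the vorticity grows at most
at the stretching rate at any point where it is attained. Hence a smooth solution cannot blow up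
as long as `∇u`, at one point of maximal vorticity for almost every time, stays close to the
gradients of simple shear flows.
-/

open MeasureTheory Set
open scoped ENNReal Topology

namespace Pool.Agent.Results.MP_b0497c_an.MiddleSingularValue

open Pool.Agent.H708R2.EulerSign Pool.Agent.H708R2.EulerTypeI Pool.Agent.W786.Sv
  Pool.Agent.W786.Max

/-- (1) If for almost every `t` there is a point `x` of maximal vorticity at which the second
singular value of `∇u(t, x)` is at most `β(t)`, or the vorticity at most `Λ(t)`, with `β ≥ 0`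
integrable and `Λ` nondecreasing and integrable, then the Beale-Kato-Majda integral is finite, and
the vorticity is bounded by `max (sup |ω₀|) Λ(t) * exp (2 ∫ β)`.
(2) The Beale-Kato-Majda integral is also finite if for all `t` near `T` there is a point of maximal
vorticity at which twice the second singular value is at most `(1 - κ / log (1/(T-t))) / (T - t)`,
or the vorticity at most `1 / ((T - t) log(1/(T-t))^κ)`, for some `κ > 1`.
(3) For non-periodic solutions, linear in `x`, this fails for each `κ < 1`. -/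
theorem result :
    (∀ (T : ℝ) (u : ℝ → V → V) (p : ℝ → V → ℝ) (β Λ : ℝ → ℝ), IsC2Solution T u p →
      (∀ t ∈ Ioo 0 T, 0 ≤ β t) → IntegrableOn β (Ioo 0 T) →
      MonotoneOn Λ (Ioo 0 T) → IntegrableOn Λ (Ioo 0 T) →
      (∀ᵐ t, t ∈ Ioo 0 T → ∃ x, IsMaxPt u t x ∧
        (Λ t < nrm (vort (u t) x) → MidLE (grad (u t) x) (β t))) →
      BKMFinite T u ∧
      ∀ W : ℝ, (∀ x, nrm (vort (u 0) x) ≤ W) → ∀ t ∈ Ioo 0 T, ∀ x,
        nrm (vort (u t) x) ≤ max W (Λ t) * Real.exp (2 * ∫ s in Ioo 0 t, β s)) ∧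
    (∀ (T κ : ℝ) (u : ℝ → V → V) (p : ℝ → V → ℝ), 0 < T → 1 < κ → IsC2Solution T u p →
      (∀ᶠ t in 𝓝[<] T, ∃ x, IsMaxPt u t x ∧
        (1 / ((T - t) * Real.log (1 / (T - t)) ^ κ) < nrm (vort (u t) x) →
          MidLE (grad (u t) x) ((1 - κ / Real.log (1 / (T - t))) / (2 * (T - t))))) →
      (∃ C : ℝ, ∀ᶠ t in 𝓝[<] T, ∀ x,
        nrm (vort (u t) x) ≤ C / ((T - t) * Real.log (1 / (T - t)) ^ κ)) ∧
      BKMFinite T u) ∧
    (∀ T κ : ℝ, 0 < T → κ < 1 → ∃ (u : ℝ → V → V) (p : ℝ → V → ℝ), IsSpaceSolution T u p ∧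
      (∀ t, ∃ A : Matrix (Fin 3) (Fin 3) ℝ, ∀ x, u t x = A.mulVec x) ∧
      (∀ᶠ t in 𝓝[<] T, ∀ x,
        MidLE (grad (u t) x) ((1 - κ / Real.log (1 / (T - t))) / (2 * (T - t)))) ∧
      ¬ BKMFinite T u) :=
  ⟨fun _ _ _ _ _ h h0 hi hm hmi hyp =>
      ⟨mid_bkm h h0 hi hm hmi hyp, fun _ hW => mid_bound h h0 hi hm hyp hW⟩,
    fun _ _ _ _ hT hκ h hyp => mid_type_one hT h hκ hyp,
    fun T _ hT hκ => ⟨uf T, pf T, uf_solution T,
      fun t => ⟨Af T t, fun x => congrFun (uf_eq T t) x⟩, uf_type hT hκ, uf_not_bkm hT⟩⟩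

end Pool.Agent.Results.MP_b0497c_an.MiddleSingularValue
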