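import Pool.Agent.W786.Max4

/-!
# Type I singularities of the Euler equations and the direction of the vorticity

A Type I singularity, `|ω| ≤ C₁ / (T - t)`, is impossible if near some point of maximal vorticity
the direction of the vorticity varies on a length scale `1 / G(t)` on which the variation `U(t)` of
the velocity satisfies `(T - t) U(t) G(t) ≤ c / (1 + log C₁)`, with an absolute constant `c > 0`.
-/

open MeasureTheory Set
open scoped ENNReal Topology

namespace Pool.Agent.Results.MP_b0497c_an.TypeIDirection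

open Pool.Agent.H708R2.EulerSign Pool.Agent.H708R2.EulerTypeI Pool.Agent.W786.Dir
  Pool.Agent.W786.Max

/-- There is an absolute constant `c > 0` such that for every `C²` periodic solution `(u, p)` of the
Euler equations on `[0, T)` and every `C₁ ≥ 1`: if near `T` the vorticity is at most
`C₁ / (T - t)`, and for all `t` near `T` there is a point of maximal vorticity near which the
vorticity is regularly directed at the length scale `1 / G(t)` with velocity variation `U(t)` (or
where it is at most `(T - t)^(-1/2)`), where `(T - t) U(t) G(t) ≤ c / (1 + log C₁)`, then the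
vorticity is `O((T - t)^(-1/2))` and the Beale-Kato-Majda integral is finite. -/
theorem result :
    ∃ c : ℝ, 0 < c ∧ ∀ (T C₁ : ℝ) (u : ℝ → V → V) (p : ℝ → V → ℝ) (G U : ℝ → ℝ),
      0 < T → 1 ≤ C₁ → IsC2Solution T u p →
      (∀ᶠ t in 𝓝[<] T, ∀ x, (T - t) * nrm (vort (u t) x) ≤ C₁) →
      (∀ᶠ t in 𝓝[<] T, 0 < G t ∧ (T - t) * (U t * G t) ≤ c / (1 + Real.log C₁) ∧
        ∃ x, IsMaxPt u t x ∧
          (1 / Real.sqrt (T - t) < nrm (vort (u t) x) → Directed (u t) x (G t) (U t))) →
      (∃ C : ℝ, ∀ᶠ t in 𝓝[<] T, ∀ x, nrm (vort (u t) x) ≤ C / Real.sqrt (T - t)) ∧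
      BKMFinite T u :=
  ⟨cst1, cst1_pos, fun _ _ _ _ _ _ hT hC h hI hd => dir_type_one hT h hC hI hd⟩

end Pool.Agent.Results.MP_b0497c_an.TypeIDirection
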