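import Pool.Agent.W786.Max4

/-!
# A scale-invariant criterion of Constantin-Fefferman-Majda type at one point of maximal vorticity

A smooth solution of the Euler equations cannot blow up at time `T` if `∫₀ᵀ U(t) G(t) dt` is finite,
where `1 / G(t)` is the length scale on which the direction of the vorticity varies near some point
of maximal vorticity, and `U(t)` the variation of the velocity there on that scale. A singularity
thus needs infinitely many turnover times at the scale of variation of the vorticity direction.

Proof: with `e = ξ(x)` and the averages `A(r) = ∫ (1 - |z|²)₊³ (e · ∂ₑu)(x + r z) dz` one has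
`r A'(r) = 6 ∫ (e · z) (1 - |z|²)₊² ω(x + r z) · (z × e) dz`, hence, as `ω = |ω| ξ` and
`ξ(x) · (z × e) = 0`, `|A'(r)| ≤ 6 G J(r)` with `J(r) = ∫ (1 - |z|²)₊² |ω|(x + r z) dz`; and
integration by parts in `|ω| = ξ · curl u` gives `J(r) ≤ C U / r` for `r ≤ 1 / G`. This bounds the
stretching rate by `C (U G (1 + log (1/δ)) + δ sup |ω|)` for all `δ ≤ 1`. The maximum of the
vorticity grows at most at the stretching rate at any point where it is attained.
-/

open MeasureTheory Set
open scoped ENNReal Topology

namespace Pool.Agent.Results.MP_b0497c_an.VorticityDirection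

open Pool.Agent.H708R2.EulerSign Pool.Agent.H708R2.EulerTypeI Pool.Agent.W786.Dir
  Pool.Agent.W786.Max

/-- There is an absolute constant `C` such that for every `C²` periodic solution `(u, p)` of the
Euler equations on `[0, T)`: if `∫₀ᵀ U G dt < ∞` and for almost every `t` there is a point `x` of
maximal vorticity near which the vorticity is regularly directed at the length scale `1 / G(t)` with
velocity variation `U(t)` (or where the vorticity is at most `Λ`), then the Beale-Kato-Majda
integral is finite, and the vorticity has the stated bound. -/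
theorem result :
    ∃ C : ℝ, ∀ (T : ℝ) (u : ℝ → V → V) (p : ℝ → V → ℝ) (G U : ℝ → ℝ) (Λ : ℝ),
      IsC2Solution T u p → IntegrableOn (fun t => U t * G t) (Ioo 0 T) →
      (∀ᵐ t, t ∈ Ioo 0 T → 0 < G t ∧ ∃ x, IsMaxPt u t x ∧
        (Λ < nrm (vort (u t) x) → Directed (u t) x (G t) (U t))) →
      BKMFinite T u ∧
      ∀ K : ℝ, 1 ≤ K → Λ ≤ K → (∀ x, nrm (vort (u 0) x) ≤ K) → ∀ t ∈ Ioo 0 T, ∀ x,
        nrm (vort (u t) x) ≤
          Real.exp ((2 + Real.log K) * Real.exp (C * ∫ s in Ioo 0 t, (1 + |U s * G s|))) :=
  ⟨Cst, fun _ _ _ _ _ _ h hint hdir => ⟨dir_bkm h hint hdir,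
    fun _ hK1 hKΛ hK0 => dir_bound h hint hdir hK1 hKΛ hK0⟩⟩

end Pool.Agent.Results.MP_b0497c_an.VorticityDirection
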